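import Pool.Agent.Lib.MP_fc1011_gt.MV.Final

/-!
# Diagrams made of multi-strand twist regions: the determinant and the span of the Jones polynomial
-/

namespace Pool.Agent.Results.MP_fc1011_gt.MultiStrand

open LaurentPolynomial _root_.MP_fc1011_gt _root_.MP_fc1011_gt.MV

/-- **Theorem.**  Let `D` be a diagram which consists of twist regions, the `j`-th being any number of half
twists of `k_j` parallel strands (`m ≥ 1` vertical strands, the `2 m` ends joined by arcs in any way), and let
`V` be its Jones polynomial.  If `span V ≥ 2` then `|V(-1)| ≤ (span V) ^ (3 m + 2 ∑ k_j ^ 3)`; so the quotient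
`log |V(-1)| / log (span V)` is at most `3 m + 2 ∑ k_j ^ 3`. -/
theorem result (m : ℕ) (hm : 0 < m) (D : MV.Diagram m) (V : ℤ[T;T⁻¹]) (hV : D.IsJones V)
    (hs : 2 ≤ span V) :
    (atNegOne V).natAbs ≤ span V ^ (3 * m + 2 * D.cubes) ∧
      quotient V ≤ 3 * m + 2 * D.cubes :=
  ⟨D.det_le_pow hm V hV hs, D.quotient_le hm V hV hs⟩

end Pool.Agent.Results.MP_fc1011_gt.MultiStrand
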