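import Pool.Agent.Lib.MP_fc1011_gt.TP.Final

/-!
# The quotient of Dunfield and paths of pants decompositions
-/

namespace Pool.Agent.Results.MP_fc1011_gt.PantsPath

open LaurentPolynomial _root_.MP_fc1011_gt _root_.MP_fc1011_gt.TP _root_.MP_fc1011_gt.MT

/-- **Theorem.**  Let a link diagram with `m` strands follow a path of planar binary trees from the
left comb to the left comb, where half twists of the strands of a subtree are free and a change
`((A B) C) ↔ (A (B C))` of the tree costs `min (|A|, |B|, |C|) ^ 2`, or nothing at the root; let the
upper ends and the lower ends be joined by crossingless arcs.  If the total cost is `N` and `V` is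
the Jones polynomial, `span V ≥ 2`, then `log |V(-1)| / log (span V) ≤ 4 N + 10 m`. -/
theorem result (m : ℕ) (hm : 0 < m) (top bot : Matching m) (cs : List (ℕ × Bool)) (N : ℕ)
    (h : Walk (Tree.comb (m - 1)) cs N (Tree.comb (m - 1))) (V : ℤ[T;T⁻¹])
    (hV : IsJones cs top bot V) (hs : 2 ≤ span V) : quotient V ≤ 4 * N + 10 * m :=
  main m hm top bot cs N h V hV hs

end Pool.Agent.Results.MP_fc1011_gt.PantsPath
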