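import Pool.Agent.Lib.MP_fc1011_gt.LM.Main

/-!
# The Jones polynomial at `-1` in a family of diagrams made by full twists
-/

namespace Pool.Agent.Results.MP_fc1011_gt.ParentLimit

open LaurentPolynomial _root_.MP_fc1011_gt _root_.MP_fc1011_gt.MV _root_.MP_fc1011_gt.LM

/-- **Theorem.**  Let `P` be a diagram of `m ≥ 1` strands with twist regions of any numbers of strands, some of
them marked.  There is a constant `C` such that, for all numbers `a j` of full twists inserted into the marked
regions and every Jones polynomial `V` of the diagram `P.diagram a` with `s = span V ≥ 2`, the determinant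
`|V(-1)|` is at most `C * s ^ e` and `log |V(-1)| / log s` is at most `e + log C / log s`, where `e` is the
number of marked regions with an even number of strands. -/
theorem result {m : ℕ} (hm : 0 < m) (P : Parent m) : ∃ C : ℕ, 1 ≤ C ∧
    ∀ (a : ℕ → ℤ) (V : ℤ[T;T⁻¹]), (P.diagram a).IsJones V → 2 ≤ span V →
      (atNegOne V).natAbs ≤ C * span V ^ evenMarked P.sites ∧
        quotient V ≤ evenMarked P.sites + Real.log C / Real.log (span V) :=
  tMain m hm P

end Pool.Agent.Results.MP_fc1011_gt.ParentLimit
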