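import Pool.Agent.Lib.MP_fc1011_gt.Quotient

/-!
# The determinant of a knot is bounded by the span of the Jones polynomial and the twist number
-/

namespace Pool.Agent.Results.MP_fc1011_gt.TwistNumber

open LaurentPolynomial _root_.MP_fc1011_gt

/-- **Theorem.**  Let `D` be a link diagram with `t ≥ 1` twist regions and let `V` be its Jones
polynomial.  Then `|V(-1)| ≤ 16^t * binomial(t + span V, t)`; in particular the quotient
`log |V(-1)| / log (span V)` is at most `6 t` if `span V ≥ 2`. -/
theorem result (t : ℕ) (ht : 0 < t) (D : TwistDiagram t) (V : ℤ[T;T⁻¹]) (hV : D.IsJones V) :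
    (atNegOne V).natAbs ≤ 16 ^ t * (t + span V).choose t ∧
      (2 ≤ span V → quotient V ≤ 6 * t) :=
  ⟨D.det_le ht V hV, fun hs => quotient_le ht D V hV hs⟩

end Pool.Agent.Results.MP_fc1011_gt.TwistNumber
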